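import Mathlib

set_option autoImplicit false

namespace Pool.Agent.H.MP_65d1df_lc

open Finset Module
open scoped Classical

abbrev F := ZMod 2

abbrev St (P : Type) := (P → ℕ) → (P → F) → P → F

def Ag {P : Type} (τ τ' : P → ℕ) (t : ℕ) : Prop :=
  ∀ q, (τ q < t ↔ τ' q < t) ∧ (τ q < t → τ q = τ' q)

def Causal {P : Type} (A : St P) : Prop :=
  ∀ τ τ' v v' p, τ p = τ' p → Ag τ τ' (τ p) → (∀ q, τ q < τ p → v q = v' q) →
    A τ v p = A τ' v' p

lemma Ag.mono {P : Type} {τ τ' : P → ℕ} {s t : ℕ} (h : Ag τ τ' t) (hs : s ≤ t) : Ag τ τ' s :=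
  fun q => by have := h q; omega

lemma Ag.refl {P : Type} (τ : P → ℕ) (t : ℕ) : Ag τ τ t := fun _ => ⟨Iff.rfl, fun _ => rfl⟩

noncomputable def play {P : Type} (G : St P) (τ : P → ℕ) (p : P) : F :=
  G τ (fun q => if _h : τ q < τ p then play G τ q else 0) p
termination_by τ p

lemma play_eq {P : Type} {G : St P} (hG : Causal G) (τ : P → ℕ) (p : P) :
    play G τ p = G τ (play G τ) p := by
  rw [play]
  exact hG _ _ _ _ _ rfl (Ag.refl _ _) fun q hq => by simp [hq]

lemma play_c {P : Type} {G : St P} (hG : Causal G) (τ τ' : P → ℕ) :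
    ∀ t p, τ p = t → τ' p = t → Ag τ τ' t → play G τ p = play G τ' p := by
  intro t
  induction t using Nat.strong_induction_on with
  | _ t ih =>
    intro p h1 h2 h
    rw [play_eq hG, play_eq hG τ']
    refine hG _ _ _ _ _ (h1.trans h2.symm) (h1 ▸ h) fun q hq => ?_
    rw [h1] at hq
    exact ih _ hq q rfl ((h q).2 hq).symm (h.mono hq.le)

def Good (P : Type) [Fintype P] (m k : ℕ) : Prop :=
  ∃ (A : St P) (B : (P → F) → Finset P), Causal A ∧ ∀ τ : P → ℕ, Function.Injective τ →
    ∀ v, #{p | v p ≠ A τ v p} ≤ m → #(B v) ≤ k ∧ ∀ p, (∀ q, τ q ≤ τ p) → p ∈ B v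

lemma Good.base (P : Type) [Fintype P] (m : ℕ) : Good P m (Fintype.card P) :=
  ⟨fun _ _ _ => 0, fun _ => univ, fun _ _ _ _ _ _ _ _ => rfl, fun _ _ _ _ => ⟨le_rfl, by simp⟩⟩

lemma Good.mono {P : Type} [Fintype P] {m k k' : ℕ} (h : Good P m k) (hk : k ≤ k') :
    Good P m k' := by
  obtain ⟨A, B, h1, h2⟩ := h
  exact ⟨A, B, h1, fun τ hτ v hv => ⟨(h2 τ hτ v hv).1.trans hk, (h2 τ hτ v hv).2⟩⟩

lemma Good.equiv {P P' : Type} [Fintype P] [Fintype P'] (e : P ≃ P') {m k : ℕ}
    (h : Good P m k) : Good P' m k := by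
  obtain ⟨A, B, h1, h2⟩ := h
  refine ⟨fun τ v p => A (τ ∘ e) (v ∘ e) (e.symm p), fun v => (B (v ∘ e)).map e.toEmbedding,
    fun τ τ' v v' p k1 k2 k3 => h1 _ _ _ _ _ (by simpa using k1)
      (fun q => by simpa using k2 (e q)) (fun q hq => k3 _ (by simpa using hq)),
    fun τ hτ v hv => ?_⟩
  have := h2 (τ ∘ e) (hτ.comp e.injective) (v ∘ e) (le_trans (card_le_card_of_injOn e
    (fun p hp => by simpa using hp) e.injective.injOn) hv)
  refine ⟨by simpa using this.1, fun p hp => ?_⟩
  simpa using this.2 (e.symm p) fun q => by simpa using hp (e q)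

section
variable {Q W : Type} [Fintype Q] [AddCommGroup W] [Module F W]

def sp (h : Q → W) (τ : Q → ℕ) (q : Q) : Submodule F W :=
  Submodule.span F (h '' {q' | ¬τ q' < τ q ∧ q' ≠ q})

noncomputable def Gh (A : St Q) (h : Q → W) : St Q := fun τ w q =>
  if h q ∈ sp h τ q then A τ w q
  else if ∑ q' with τ q' < τ q, w q' • h q' ∈ sp h τ q then 0 else 1

lemma Gh_c {A : St Q} (hA : Causal A) (h : Q → W) : Causal (Gh A h) := by
  intro τ τ' v v' p k1 k2 k3
  have e1 : sp h τ p = sp h τ' p := by
    unfold sp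
    congr 2
    ext q
    simp only [Set.mem_setOf_eq, ← k1, (k2 q).1]
  have e2 : ∑ q' with τ q' < τ p, v q' • h q' = ∑ q' with τ' q' < τ' p, v' q' • h q' :=
    sum_congr (by ext q; simp [← k1, (k2 q).1]) fun q hq => by
      rw [k3 q ((k2 q).1.2 (k1 ▸ (mem_filter.1 hq).2))]
  simp only [Gh, e1, e2, hA τ τ' v v' p k1 k2 k3]

lemma F01 : ∀ r : F, r = 0 ∨ r = 1 := by decide

lemma Gh_code {A : St Q} (hA : Causal A) (h : Q → W) (τ : Q → ℕ) (hτ : Function.Injective τ) :
    ∑ q, play (Gh A h) τ q • h q = 0 := by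
  have key : ∀ t, ∑ q with τ q < t, play (Gh A h) τ q • h q ∈
      Submodule.span F (h '' {q | ¬τ q < t}) := by
    intro t
    induction t with
    | zero => simp
    | succ t ih =>
      by_cases ht : ∃ p, τ p = t
      swap
      · push Not at ht
        have e : ∀ q, τ q < t + 1 ↔ τ q < t := fun q => by have := ht q; omega
        simpa only [e] using ih
      obtain ⟨p, rfl⟩ := ht
      have e1 : (univ.filter fun q => τ q < τ p + 1) = insert p (univ.filter fun q => τ q < τ p) := by
        ext q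
        simp only [mem_filter, mem_univ, true_and, mem_insert, ← hτ.eq_iff]
        omega
      have e2 : {q | ¬τ q < τ p + 1} = {q' | ¬τ q' < τ p ∧ q' ≠ p} := by
        ext q
        simp only [Set.mem_setOf_eq, ne_eq, ← hτ.eq_iff]
        omega
      have e3 : {q | ¬τ q < τ p} = insert p {q' | ¬τ q' < τ p ∧ q' ≠ p} := by
        ext q
        simp only [Set.mem_setOf_eq, ne_eq, Set.mem_insert_iff, ← hτ.eq_iff]
        omega
      rw [e1, e2, sum_insert (by simp)]
      rw [e3, Set.image_insert_eq, Submodule.mem_span_insert] at ih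
      obtain ⟨c, y, hy, ih⟩ := ih
      change _ ∈ sp h τ p
      change _ ∈ sp h τ p at hy
      rw [play_eq (Gh_c hA h), Gh]
      split_ifs with k1 k2
      · rw [ih]
        exact add_mem (Submodule.smul_mem _ _ k1) (add_mem (Submodule.smul_mem _ _ k1) hy)
      · simpa using k2
      · rw [ih] at k2 ⊢
        rcases F01 c with rfl | rfl
        · exact absurd (by simpa using hy) k2
        · rw [← add_assoc, ← add_smul, show (1 + 1 : F) = 0 from rfl]
          simpa using hy
  have := key (univ.sup τ + 1)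
  have e : ∀ q, τ q < univ.sup τ + 1 := fun q => Nat.lt_succ_of_le (le_sup (mem_univ q))
  simpa [e] using this

lemma Gh_dev [FiniteDimensional F W] {A : St Q} (hA : Causal A) (h : Q → W) (τ : Q → ℕ)
    (hτ : Function.Injective τ) :
    #{q | play (Gh A h) τ q ≠ A τ (play (Gh A h) τ) q} ≤ finrank F W := by
  set S : Finset Q := {q | play (Gh A h) τ q ≠ A τ (play (Gh A h) τ) q} with hS
  have h1 : ∀ q ∈ S, h q ∉ sp h τ q := fun q hq k => by
    refine (mem_filter.1 hq).2 ?_
    rw [play_eq (Gh_c hA h), Gh, if_pos k]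
  have hl : LinearIndependent F (fun q : S => h q) := by
    rw [Fintype.linearIndependent_iff]
    intro g hg
    by_contra hne
    push Not at hne
    obtain ⟨p, hp, hm⟩ := exists_min_image (univ.filter fun q => g q ≠ 0) (fun q => τ q)
      (by obtain ⟨q, hq⟩ := hne; exact ⟨q, by simpa using hq⟩)
    have gp : g p = 1 := (F01 _).resolve_left (mem_filter.1 hp).2
    refine h1 p p.2 ?_
    rw [← add_sum_erase _ _ (mem_univ p), gp, one_smul, add_eq_zero_iff_eq_neg] at hg
    rw [hg]
    refine neg_mem (Submodule.sum_mem _ fun q hq => ?_)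
    by_cases k : g q = 0
    · simp [k]
    · refine Submodule.smul_mem _ _ (Submodule.subset_span ⟨q, ⟨?_, fun e => ?_⟩, rfl⟩)
      · simpa using hm q (by simpa using k)
      · exact (mem_erase.1 hq).1 (Subtype.ext e)
  simpa using hl.fintype_card_le_finrank

def late (m : ℕ) (τ : Q → ℕ) (q : Q) : Prop :=
  Fintype.card Q ≤ #{q' | τ q' < τ q} + (m + 1)

lemma late_card (m : ℕ) (hm : m + 1 ≤ Fintype.card Q) (τ : Q → ℕ) (hτ : Function.Injective τ) :
    #{q | late m τ q} = m + 1 ∧ (∀ p, (∀ q, τ q ≤ τ p) → late m τ p) ∧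
      ∀ q q', late m τ q → ¬late m τ q' → τ q' < τ q := by
  let r : Q → ℕ := fun q => #{q' | τ q' < τ q}
  have r1 : ∀ q q', τ q < τ q' → r q < r q' := fun q q' k => card_lt_card
    ⟨fun x hx => by simp only [mem_filter, mem_univ, true_and] at hx ⊢; omega,
      fun k' => by simpa using k' (show q ∈ _ by simpa using k)⟩
  have r2 : Function.Injective r := fun q q' k => hτ (by
    rcases lt_trichotomy (τ q) (τ q') with e | e | e
    · exact absurd k (r1 _ _ e).ne
    · exact e
    · exact absurd k (r1 _ _ e).ne')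
  have r3 : univ.image r = range (Fintype.card Q) := by
    refine eq_of_subset_of_card_le (fun x hx => ?_) (by simp [card_image_of_injective _ r2])
    obtain ⟨q, -, rfl⟩ := mem_image.1 hx
    exact mem_range.2 (card_lt_univ_of_notMem (x := q) (by simp))
  refine ⟨?_, fun p hp => ?_, fun q q' k k' => ?_⟩
  · rw [← card_image_of_injective _ r2]
    have : (univ.filter (late m τ)).image r = Ico (Fintype.card Q - (m + 1)) (Fintype.card Q) := by
      ext x
      have := r3 ▸ (mem_image (s := univ) (f := r) (b := x))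
      simp only [mem_range, mem_univ, true_and] at this
      simp only [mem_image, mem_filter, mem_univ, true_and, mem_Ico, late]
      constructor
      · rintro ⟨q, k, rfl⟩
        have := this.2 ⟨q, rfl⟩
        change _ ≤ r q + _ at k
        omega
      · rintro ⟨k1, k2⟩
        obtain ⟨q, rfl⟩ := this.1 k2
        exact ⟨q, by change _ ≤ r q + _; omega, rfl⟩
    rw [this, Nat.card_Ico]
    omega
  · have : (univ.filter fun q' => τ q' < τ p) = univ.erase p := by
      ext q
      have := hp q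
      simp only [mem_filter, mem_univ, true_and, mem_erase, ne_eq, and_true, ← hτ.eq_iff]
      omega
    rw [late, this, card_erase_of_mem (mem_univ _), card_univ]
    omega
  · by_contra e
    have : r q ≤ r q' := card_le_card fun x hx => by
      simp only [mem_filter, mem_univ, true_and] at hx ⊢; omega
    exact k' (le_trans k (Nat.add_le_add_right this _))

omit [AddCommGroup W] [Module F W] in
lemma late_c (m : ℕ) {τ τ' : Q → ℕ} {q : Q} (k1 : τ q = τ' q) (k2 : Ag τ τ' (τ q)) :
    late m τ q ↔ late m τ' q := by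
  have : (univ.filter fun q' => τ q' < τ q) = univ.filter fun q' => τ' q' < τ' q := by
    ext x; simp [← k1, (k2 x).1]
  simp only [late, this]

end

end Pool.Agent.H.MP_65d1df_lc
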