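import Pool.Agent.H.MP_65d1df_lc.A

set_option autoImplicit false

namespace Pool.Agent.H.MP_65d1df_lc

open Finset Module Filter
open scoped Classical

lemma step {L Q W : Type} [Fintype L] [Fintype Q] [AddCommGroup W] [Module F W]
    [FiniteDimensional F W] {m ρ k : ℕ} (hG : Good Q ρ k) (h : Q → W) (hρ : finrank F W ≤ ρ)
    (hd : ∀ w : Q → F, ∑ q, w q • h q = 0 → #{q | w q ≠ 0} ≤ 2 * m + 2 → w = 0)
    (hm : m + 1 ≤ Fintype.card Q) : Good (L × Q) m (Fintype.card L * (m + 1) + m * k) := by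
  obtain ⟨A, B, hA, hB⟩ := hG
  let u : (Q → ℕ) → Q → F := play (Gh A h)
  let A1 : St Q := fun τ v q => u τ q +
    if late m τ q ∧ ¬∃ q', τ q' < τ q ∧ ¬late m τ q' ∧ v q' ≠ u τ q' then 1 else 0
  have c1 : Causal A1 := by
    intro τ τ' v v' q k1 k2 k3
    have e1 : u τ q = u τ' q := play_c (Gh_c hA h) τ τ' _ q rfl k1.symm k2
    have e2 : (∃ q', τ q' < τ q ∧ ¬late m τ q' ∧ v q' ≠ u τ q') ↔
        ∃ q', τ' q' < τ' q ∧ ¬late m τ' q' ∧ v' q' ≠ u τ' q' := by
      refine exists_congr fun q' => ?_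
      rw [← k1, ← (k2 q').1]
      refine and_congr_right fun hq => ?_
      have a1 := (k2 q').2 hq
      have a2 : u τ q' = u τ' q' := play_c (Gh_c hA h) τ τ' _ q' rfl a1.symm (k2.mono hq.le)
      rw [late_c m a1 (k2.mono hq.le), k3 q' hq, a2]
    simp only [A1, e1, e2, late_c m k1 k2]
  let dec : (Q → F) → Q → F := fun w =>
    if hw : ∃ c : Q → F, ∑ q, c q • h q = 0 ∧ #{q | w q ≠ c q} ≤ m + 1 then hw.choose else 0
  let B1 : (Q → F) → Finset Q := fun w =>
    if #{q | w q ≠ dec w q} ≤ m then ({q | w q ≠ dec w q} : Finset Q) ∪ B (dec w)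
    else ({q | w q ≠ dec w q} : Finset Q)
  have blk : ∀ τ : Q → ℕ, Function.Injective τ → ∀ v, #{q | v q ≠ A1 τ v q} ≤ m →
      #(B1 v) ≤ m + 1 + (if ∃ q, v q ≠ A1 τ v q then k else 0) ∧
      ∀ p, (∀ q, τ q ≤ τ p) → p ∈ B1 v := by
    intro τ hτ v hv
    obtain ⟨l1, l2, l3⟩ := late_card m hm τ hτ
    have b1 := hB τ hτ (u τ) ((Gh_dev hA h τ hτ).trans hρ)
    have f1 : #{q | v q ≠ u τ q} ≤ m ∨ (∀ q, v q ≠ u τ q → late m τ q) := by
      by_cases k : ∃ q', ¬late m τ q' ∧ v q' ≠ u τ q'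
      · refine .inl (le_trans (card_le_card fun q hq => ?_) hv)
        obtain ⟨q', k1, k2⟩ := k
        simp only [mem_filter, mem_univ, true_and, A1] at hq ⊢
        rwa [if_neg (fun e => e.2 ⟨q', l3 _ _ e.1 k1, k1, k2⟩), add_zero]
      · exact .inr fun q hq => by_contra fun e => k ⟨q, e, hq⟩
    have f2 : #{q | v q ≠ u τ q} ≤ m + 1 := by
      rcases f1 with k | k
      · omega
      · exact l1 ▸ card_le_card fun q hq => by simpa using k q (by simpa using hq)
    have f3 : dec v = u τ := by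
      have ex : ∃ c : Q → F, ∑ q, c q • h q = 0 ∧ #{q | v q ≠ c q} ≤ m + 1 :=
        ⟨u τ, Gh_code hA h τ hτ, f2⟩
      simp only [dec, dif_pos ex]
      obtain ⟨g1, g2⟩ := ex.choose_spec
      rw [← sub_eq_zero]
      refine hd _ ?_ ?_
      · simp only [Pi.sub_apply, sub_smul, sum_sub_distrib, g1, zero_sub, neg_eq_zero]
        exact Gh_code hA h τ hτ
      · refine le_trans (card_le_card (t := ({q | v q ≠ ex.choose q} : Finset Q) ∪
          ({q | v q ≠ u τ q} : Finset Q)) fun q hq => ?_) ((card_union_le _ _).trans (by omega))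
        simp only [mem_filter, mem_univ, true_and, mem_union, Pi.sub_apply, sub_ne_zero] at hq ⊢
        by_contra e
        push Not at e
        exact hq (e.1.symm.trans e.2)
    simp only [B1, f3]
    refine ⟨?_, fun p hp => ?_⟩
    · by_cases k : ∃ q, v q ≠ A1 τ v q
      · rw [if_pos k]
        split_ifs
        · exact (card_union_le _ _).trans (Nat.add_le_add f2 b1.1)
        · omega
      · rw [if_neg k]
        push Not at k
        have e0 : ∀ q, ¬late m τ q → v q = u τ q := fun q e => by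
          rw [k q]; simp [A1, e]
        have : #{q | late m τ q} ≤ #{q | v q ≠ u τ q} := card_le_card fun q hq => by
          simp only [mem_filter, mem_univ, true_and] at hq ⊢
          rw [k q]
          simp only [A1]
          rw [if_pos ⟨hq, fun ⟨q', _, e1, e2⟩ => e2 (e0 q' e1)⟩]
          simp
        rw [if_neg (by omega)]
        omega
    · split_ifs with k
      · exact mem_union_right _ (b1.2 p hp)
      · by_contra e
        refine k (f1.elim id fun k' => ?_)
        have : (univ.filter fun q => v q ≠ u τ q) ⊆ (univ.filter (late m τ)).erase p :=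
          fun q hq => mem_erase.2 ⟨fun e' => e (e' ▸ hq), by simpa using k' q (by simpa using hq)⟩
        have := card_le_card this
        rw [card_erase_of_mem (by simpa using l2 p hp),
          show #(filter (late m τ) univ) = m + 1 from l1] at this
        exact this
  refine ⟨fun τ v p => A1 (fun q => τ (p.1, q)) (fun q => v (p.1, q)) p.2,
    fun v => univ.biUnion fun b => (B1 fun q => v (b, q)).image fun q => (b, q),
    fun τ τ' v v' p k1 k2 k3 => c1 _ _ _ _ _ k1 (fun q => k2 _) (fun q => k3 _),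
    fun τ hτ v hv => ?_⟩
  have bl := fun b => blk (fun q => τ (b, q)) (fun _ _ e => congrArg Prod.snd (hτ e))
    (fun q => v (b, q)) (le_trans (card_le_card_of_injOn (fun q => (b, q))
      (fun q hq => by simpa using hq) fun _ _ _ _ e => congrArg Prod.snd e) hv)
  refine ⟨card_biUnion_le.trans (le_trans (sum_le_sum fun b _ =>
    card_image_le.trans (bl b).1) ?_), fun p hp => mem_biUnion.2 ⟨p.1, mem_univ _,
      mem_image.2 ⟨p.2, (bl p.1).2 p.2 fun q => hp _, rfl⟩⟩⟩
  rw [sum_add_distrib, ← sum_filter]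
  simp only [sum_const, card_univ, smul_eq_mul]
  refine Nat.add_le_add_left (Nat.mul_le_mul_right _ (le_trans ?_ (card_image_le.trans hv :
    #(image Prod.fst _) ≤ m))) _
  refine card_le_card fun b hb => ?_
  obtain ⟨q, hq⟩ := (mem_filter.1 hb).2
  exact mem_image.2 ⟨(b, q), by simpa using hq, rfl⟩

lemma stepN {l n a m ρ k : ℕ} (ha : a ≠ 0) (hn : n ≤ 2 ^ a) (hG : Good (Fin n) ρ k)
    (hρ : (2 * m + 2) * a ≤ ρ) (hm : m + 1 ≤ n) : Good (Fin (l * n)) m (l * (m + 1) + m * k) := by
  haveI : Fintype (GaloisField 2 a) := Fintype.ofFinite _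
  obtain ⟨α⟩ : Nonempty (Fin n ↪ GaloisField 2 a) := Function.Embedding.nonempty_of_card_le (by
    rw [← Nat.card_eq_fintype_card (α := GaloisField 2 a), GaloisField.card 2 a ha]; simpa)
  have := step (L := Fin l) (m := m) hG (fun q (i : Fin (2 * m + 2)) => α q ^ i.val)
    (by simpa [finrank_pi_fintype, GaloisField.finrank 2 ha] using hρ) (fun w h1 h2 => ?_)
    (by simpa)
  · simpa using this.equiv finProdFinEquiv
  by_contra hne
  obtain ⟨p, hp⟩ := Function.ne_iff.1 hne
  let f : Polynomial (GaloisField 2 a) :=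
    ∏ q ∈ (univ.filter fun q => w q ≠ 0).erase p, (Polynomial.X - Polynomial.C (α q))
  have f1 : f.natDegree < 2 * m + 2 := by
    rw [Polynomial.natDegree_finsetProd_X_sub_C_eq_card,
      card_erase_of_mem (by simpa using hp)]
    omega
  have f2 : ∑ q, w q • f.eval (α q) = 0 := by
    simp only [Polynomial.eval_eq_sum_range' f1, smul_sum]
    rw [sum_comm]
    refine sum_eq_zero fun i hi => ?_
    have := congrFun h1 ⟨i, mem_range.1 hi⟩
    simp only [Finset.sum_apply, Pi.smul_apply, Pi.zero_apply] at this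
    simp only [← mul_smul_comm, ← mul_sum, this, mul_zero]
  rw [sum_eq_single p (fun q _ e => ?_) (by simp)] at f2
  · rw [(F01 _).resolve_left hp, one_smul, Polynomial.eval_prod, prod_eq_zero_iff] at f2
    obtain ⟨q, k1, k2⟩ := f2
    simp only [Polynomial.eval_sub, Polynomial.eval_X, Polynomial.eval_C, sub_eq_zero] at k2
    exact (mem_erase.1 k1).1 (α.injective k2).symm
  · by_cases k : w q = 0
    · simp [k]
    · rw [Polynomial.eval_prod, prod_eq_zero (i := q) (by simp [e, k]) (by simp), smul_zero]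

lemma iter (l a M d : ℕ) (ha : a ≠ 0) (hl : l ^ d ≤ 2 ^ a) (hM : M + 1 ≤ l) :
    ∀ j ≤ d, ∀ m, 1 ≤ m → m * (4 * a) ^ j ≤ M → Good (Fin (l ^ (j + 1))) m (l * (3 * M) ^ j) := by
  intro j
  induction j with
  | zero => intro _ m _ _; exact (Good.base (Fin (l ^ (0 + 1))) m).mono (by simp)
  | succ j ih =>
    intro hj m h1 h2
    have a1 : 1 ≤ 4 * a := by omega
    have a2 : m ≤ M := le_trans (Nat.le_mul_of_pos_right _ (by positivity)) h2
    have := stepN (l := l) (m := m) ha ((Nat.pow_le_pow_right (by omega) hj).trans hl)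
      (ih (by omega) (m * (4 * a)) (by nlinarith) (by rw [mul_assoc, ← pow_succ']; exact h2))
      (by nlinarith) (le_trans (by omega) (hM.trans (Nat.le_self_pow (by omega) _)))
    rw [← pow_succ'] at this
    refine this.mono ?_
    have a3 : 1 ≤ (3 * M) ^ j := Nat.one_le_pow _ _ (by omega)
    have a4 : m + 1 + m * (3 * M) ^ j ≤ (3 * M) ^ (j + 1) := by
      rw [pow_succ']
      nlinarith [Nat.mul_le_mul_right ((3 * M) ^ j) a2]
    nlinarith [Nat.mul_le_mul_left l a4]

lemma small (δ c : ℝ) (hδ : 0 < δ) (hc : 0 < c) (N : ℕ) :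
    ∃ m ≥ N, ∃ k : ℕ, (k : ℝ) < c * ((m + 1 : ℕ) : ℝ) ^ δ ∧ Good (Fin (m + 1)) 1 k := by
  obtain ⟨d, hd⟩ := exists_nat_ge (2 / δ)
  have t1 := tendsto_pow_const_div_const_pow_of_one_lt (d * d) (show (1 : ℝ) < 2 by norm_num)
  have t2 := tendsto_pow_const_div_const_pow_of_one_lt d (show (1 : ℝ) < 2 by norm_num)
  obtain ⟨s, s1, s2, s3⟩ := ((t1.eventually (gt_mem_nhds
    (show 0 < c / (3 * (4 * (d + 1)) ^ d) ^ d by positivity))).and ((t2.eventually (gt_mem_nhds
    (show 0 < 1 / ((4 * ((d : ℝ) + 1)) ^ d) by positivity))).and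
    (eventually_ge_atTop (N + 1)))).exists
  rw [div_lt_div_iff₀ (by positivity) (by positivity)] at s1 s2
  have a1 : (4 * (s * (d + 1))) ^ d + 1 ≤ 2 ^ s := by
    have : ((4 * (s * (d + 1)) : ℝ)) ^ d < 2 ^ s := by
      rw [show (4 * (s * (d + 1)) : ℝ) = s * (4 * (d + 1)) by ring, mul_pow]
      linarith
    exact_mod_cast this
  have g := iter (2 ^ s) (s * (d + 1)) ((4 * (s * (d + 1))) ^ d) d
    (Nat.mul_ne_zero (by omega) (by omega))
    (by rw [← pow_mul]; exact Nat.pow_le_pow_right (by norm_num) (by nlinarith)) a1 d le_rfl 1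
    le_rfl (by simp)
  have a2 : s < (2 ^ s) ^ (d + 1) :=
    lt_of_lt_of_le Nat.lt_two_pow_self (Nat.le_self_pow (by omega) _)
  obtain ⟨m, hm⟩ : ∃ m, (2 ^ s) ^ (d + 1) = m + 1 := ⟨(2 ^ s) ^ (d + 1) - 1, by omega⟩
  refine ⟨m, by omega, _, ?_, hm ▸ g⟩
  rw [← hm]
  push_cast
  have a3 : ((2 : ℝ) ^ s) ^ 2 ≤ ((2 ^ s) ^ (d + 1)) ^ δ := by
    rw [← Real.rpow_natCast _ (d + 1), ← Real.rpow_mul (by positivity), ← Real.rpow_natCast _ 2]
    refine Real.rpow_le_rpow_of_exponent_le (one_le_pow₀ (by norm_num)) ?_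
    rw [div_le_iff₀ hδ] at hd
    push_cast
    nlinarith
  have a4 : (3 * (4 * ((s : ℝ) * (d + 1))) ^ d) ^ d = s ^ (d * d) * (3 * (4 * (d + 1)) ^ d) ^ d := by
    rw [pow_mul, ← mul_pow, show (4 * (s * (d + 1)) : ℝ) = s * (4 * (d + 1)) by ring,
      mul_pow (s : ℝ)]
    ring
  rw [a4]
  have a5 : (0 : ℝ) < 2 ^ s := by positivity
  nlinarith [mul_lt_mul_of_pos_left s1 a5, mul_le_mul_of_nonneg_left a3 hc.le]

/-- the vector written on input (σ, b) -/
def vec {m : ℕ} (A : List (Fin (m + 1)) → Bool) (σ : Equiv.Perm (Fin (m + 1))) (b : Bool) :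
    Fin (m + 1) → Bool := fun j => if σ.symm j = Fin.last m then b
  else A (List.map σ ((List.finRange (m + 1)).take ((σ.symm j).val + 1)))

lemma top {m k : ℕ} (h : Good (Fin (m + 1)) 1 k) : ∃ (A : List (Fin (m + 1)) → Bool)
    (B : (Fin (m + 1) → Bool) → Finset (Fin (m + 1))), ∀ σ b,
      σ (Fin.last m) ∈ B (vec A σ b) ∧ #(B (vec A σ b)) ≤ k := by
  obtain ⟨A, B, hA, hB⟩ := h
  refine ⟨fun L => decide (play A (fun q => L.idxOf q) (L.getLastD 0) = 1),
    fun v => B fun j => if v j then 1 else 0, fun σ b => ?_⟩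
  let τ : Fin (m + 1) → ℕ := fun q => (σ.symm q).val
  have key : ∀ j, σ.symm j ≠ Fin.last m → (if vec (fun L => decide
      (play A (fun q => L.idxOf q) (L.getLastD 0) = 1)) σ b j then (1 : F) else 0) = play A τ j := by
    intro j hj
    set L := List.map σ ((List.finRange (m + 1)).take ((σ.symm j).val + 1)) with hL
    have l0 : L.length = τ j + 1 := by
      have := (σ.symm j).2
      simp only [hL, List.length_map, List.length_take, List.length_finRange, τ]
      omega
    have l1 : ∀ q, (h : τ q < L.length) → L[τ q] = q := fun q h => by simp [hL, τ]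
    have l2 : L.Nodup := ((List.nodup_finRange _).sublist (List.take_sublist _ _)).map σ.injective
    have l3 : ∀ q, τ q ≤ τ j → L.idxOf q = τ q := fun q hq => by
      conv_lhs => rw [← l1 q (by omega)]
      exact l2.idxOf_getElem _ _
    have l4 : ∀ q, L.idxOf q < τ j → τ q ≤ τ j := fun q hq => by
      have h1 : L.idxOf q < L.length := by omega
      have h2 := List.getElem_idxOf h1
      simp only [hL, List.getElem_map, List.getElem_take, List.getElem_finRange] at h2
      have : τ q = L.idxOf q := by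
        simp only [τ]
        conv_lhs => rw [← h2]
        simp [hL]
      omega
    have l5 : L.getLastD 0 = j := by
      rw [List.getLastD_eq_getLast?, List.getLast?_eq_getElem?, l0, Nat.add_sub_cancel,
        List.getElem?_eq_getElem (by omega), l1 j (by omega)]
      rfl
    have e := play_c hA τ (fun q => L.idxOf q) _ j rfl (l3 j le_rfl) fun q =>
      ⟨⟨fun k => (l3 q k.le).trans_lt k, fun k => (l3 q (l4 q k)).symm.trans_lt k⟩,
        fun k => (l3 q k.le).symm⟩
    simp only [vec, if_neg hj, ← hL, l5, ← e, decide_eq_true_eq]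
    rcases F01 (play A τ j) with k | k <;> simp [k]
  have := hB τ (fun _ _ e => σ.symm.injective (Fin.ext e)) _ (card_le_one.2 ?_ :
    #{p | (fun j => if vec (fun L => decide (play A (fun q => L.idxOf q) (L.getLastD 0) = 1))
      σ b j then (1 : F) else 0) p ≠ A τ (fun j => if vec (fun L => decide
      (play A (fun q => L.idxOf q) (L.getLastD 0) = 1)) σ b j then (1 : F) else 0) p} ≤ 1)
  · exact ⟨this.2 _ fun q => by simpa [τ] using Nat.lt_succ_iff.1 (σ.symm q).2, this.1⟩
  have : ∀ p, σ.symm p ≠ Fin.last m → (if vec (fun L => decide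
      (play A (fun q => L.idxOf q) (L.getLastD 0) = 1)) σ b p then (1 : F) else 0) =
      A τ (fun j => if vec (fun L => decide
      (play A (fun q => L.idxOf q) (L.getLastD 0) = 1)) σ b j then (1 : F) else 0) p := by
    intro p hp
    rw [key p hp, play_eq hA]
    refine hA _ _ _ _ _ rfl (Ag.refl _ _) fun q hq => (key q fun e => ?_).symm
    have := (σ.symm p).2
    simp only [τ, e, Fin.val_last] at hq
    omega
  intro p hp q hq
  refine σ.symm.injective ((by_contra fun e => (mem_filter.1 hp).2 (this p e) :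
    σ.symm p = Fin.last m).trans (by_contra fun e => (mem_filter.1 hq).2 (this q e) :
    σ.symm q = Fin.last m).symm)

theorem main (δ c : ℝ) (hδ : 0 < δ) (hc : 0 < c) (N : ℕ) : ∃ m ≥ N,
    ∃ (A : List (Fin (m + 1)) → Bool) (B : (Fin (m + 1) → Bool) → Finset (Fin (m + 1))), ∀ σ b,
      σ (Fin.last m) ∈ B (vec A σ b) ∧ (#(B (vec A σ b)) : ℝ) < c * ((m + 1 : ℕ) : ℝ) ^ δ := by
  obtain ⟨m, hm, k, hk, g⟩ := small δ c hδ hc N
  obtain ⟨A, B, h⟩ := top g
  exact ⟨m, hm, A, B, fun σ b => ⟨(h σ b).1, lt_of_le_of_lt (by exact_mod_cast (h σ b).2) hk⟩⟩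

end Pool.Agent.H.MP_65d1df_lc
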